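import Pool.Agent.K3h71.NP.Res

/-! The points of the fibre products. -/

set_option autoImplicit false
set_option linter.all false
set_option maxHeartbeats 400000

namespace Pool.Agent.K3h71.NP

open Polynomial Pool.Agent.K3h82.CP Pool.Agent.R410.NG

theorem finsum_pts {H Z : Type} [Finite H] [Finite Z] {r : ℕ} (p : H → Prop)
    (s : H → Fin r → Z → Prop) (f : H → ℝ) :
    ∑ᶠ P : {P : H × (Fin r → Z) // p P.1 ∧ ∀ i, s P.1 i (P.2 i)}, f P.1.1 =
      ∑ᶠ φ : {φ : H // p φ}, f φ.1 * ∏ i, (Nat.card {z : Z // s φ.1 i z} : ℝ) := by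
  classical
  let _ := Fintype.ofFinite H
  let _ := Fintype.ofFinite Z
  let e : (Σ φ : {φ : H // p φ}, {z : Fin r → Z // ∀ i, s φ.1 i (z i)}) ≃
      {P : H × (Fin r → Z) // p P.1 ∧ ∀ i, s P.1 i (P.2 i)} :=
    { toFun := fun x => ⟨(x.1.1, x.2.1), x.1.2, x.2.2⟩
      invFun := fun P => ⟨⟨P.1.1, P.2.1⟩, ⟨P.1.2, P.2.2⟩⟩
      left_inv := fun x => rfl
      right_inv := fun P => rfl }
  rw [← finsum_comp_equiv e (f := fun P => f P.1.1), finsum_eq_sum_of_fintype,
    finsum_eq_sum_of_fintype, Fintype.sum_sigma]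
  refine Finset.sum_congr rfl fun φ _ => ?_
  have h1 : ∀ z : {z : Fin r → Z // ∀ i, s φ.1 i (z i)}, f (e ⟨φ, z⟩).1.1 = f φ.1 := fun z => rfl
  rw [Finset.sum_congr rfl fun z _ => h1 z, Finset.sum_const, Finset.card_univ, nsmul_eq_mul,
    ← Nat.card_eq_fintype_card, Nat.card_congr (Equiv.subtypePiEquivPi (p := fun i z => s φ.1 i z)),
    Nat.card_pi, mul_comm]
  push_cast
  rfl

theorem nF_pos {D : Type} [CommRing D] [IsDomain D] [UniqueFactorizationMonoid D] {f : D}
    (h0 : f ≠ 0) (hu : ¬ IsUnit f) : 1 ≤ nF f := by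
  classical
  have h : {p : Associates D | Irreducible p ∧ p ∣ Associates.mk f} ⊆
      (((UniqueFactorizationMonoid.factors f).map Associates.mk).toFinset :
        Set (Associates D)) := by
    rintro p ⟨hp, hpB⟩
    obtain ⟨q, rfl⟩ := Associates.mk_surjective p
    rw [Associates.irreducible_mk] at hp
    rw [Associates.mk_dvd_mk] at hpB
    obtain ⟨t, ht, hqt⟩ := UniqueFactorizationMonoid.exists_mem_factors_of_dvd h0 hp hpB
    rw [Finset.mem_coe, Multiset.mem_toFinset, Multiset.mem_map]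
    exact ⟨t, ht, (Associates.mk_eq_mk_iff_associated.2 hqt).symm⟩
  have hfin : Finite {p : Associates D // Irreducible p ∧ p ∣ Associates.mk f} :=
    Set.Finite.subset (Finset.finite_toSet _) h
  obtain ⟨p, hp, hpf⟩ := WfDvdMonoid.exists_irreducible_factor hu h0
  have hne : Nonempty {p : Associates D // Irreducible p ∧ p ∣ Associates.mk f} :=
    ⟨⟨Associates.mk p, Associates.irreducible_mk.2 hp, Associates.mk_dvd_mk.2 hpf⟩⟩
  unfold nF
  exact Nat.card_pos

theorem VV_deg {R : Type} [CommRing R] [Nontrivial R] {A A' : R[X][X]} (h : A'.Monic) :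
    (VV A A').natDegree = A'.natDegree := by
  unfold VV
  rw [natDegree_sub_C, h.natDegree_map]

theorem VV_not {M : Type} [Field M] {A A' : M[X][X]} (h : A'.Monic) (h0 : 0 < A'.natDegree) :
    ¬ IsUnit (VV A A') := by
  intro hu
  have h2 : (VV A A').natDegree = 0 := natDegree_eq_zero_of_isUnit hu
  have h3 := VV_deg (A := A) h
  rw [h2] at h3
  exact absurd h3 h0.ne

theorem nF_VV_pos {M : Type} [Field M] {A A' : M[X][X]} (h : A'.Monic) (h0 : 0 < A'.natDegree) :
    1 ≤ nF (VV A A') :=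
  nF_pos (D := M[X][X][X]) (VV_monic (a := A) h h0).ne_zero (VV_not h h0)

end Pool.Agent.K3h71.NP
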