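import Pool.Agent.K3h71.NP.Wgt

/-! The field of rational functions in two variables. -/

set_option autoImplicit false
set_option linter.all false
set_option maxHeartbeats 400000

namespace Pool.Agent.K3h71.NP

open Polynomial Pool.Agent.K3h82.CP Pool.Agent.R410.NG
open Pool.Agent.R410.LW (FG frac_of_closure ev ev_C ev_X ev_eq)
open scoped IntermediateField.algebraAdjoinAdjoin

section
variable {M K : Type} [Field M] [CharZero M] [Field K] [CharZero K] [Algebra M K] {w₁ w₂ : K}

theorem chi_inj (hind : AlgebraicIndependent M ![w₁, w₂]) :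
    Function.Injective (ev (algebraMap M K) (w₁, w₂)) := by
  let θ : M[X][X] →+* MvPolynomial (Fin 2) M :=
    eval₂RingHom (eval₂RingHom MvPolynomial.C (MvPolynomial.X 0)) (MvPolynomial.X 1)
  let η : MvPolynomial (Fin 2) M →+* M[X][X] :=
    MvPolynomial.eval₂Hom (C.comp C) (![C X, X] : Fin 2 → M[X][X])
  have h1 : η.comp θ = RingHom.id _ := by
    apply Polynomial.ringHom_ext
    · intro p
      have h2 : (η.comp θ).comp C = C := by
        apply Polynomial.ringHom_ext
        · intro a
          simp [θ, η]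
        · simp [θ, η]
      exact congrArg (fun f => f p) h2
    · simp [θ, η]
  have hθ : Function.Injective θ := by
    intro p q h
    have h2 := congrArg (fun f : M[X][X] →+* M[X][X] => f p) h1
    have h3 := congrArg (fun f : M[X][X] →+* M[X][X] => f q) h1
    simp only [RingHom.comp_apply, RingHom.id_apply] at h2 h3
    rw [← h2, ← h3, h]
  have h4 : ev (algebraMap M K) (w₁, w₂) =
      ((MvPolynomial.aeval ![w₁, w₂] : MvPolynomial (Fin 2) M →ₐ[M] K) : _ →+* K).comp θ := by
    apply Polynomial.ringHom_ext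
    · intro p
      have h5 : (ev (algebraMap M K) (w₁, w₂)).comp C =
          ((((MvPolynomial.aeval ![w₁, w₂] : MvPolynomial (Fin 2) M →ₐ[M] K) : _ →+* K).comp
            θ).comp C) := by
        apply Polynomial.ringHom_ext
        · intro a
          rw [RingHom.comp_apply, ev_C, eval₂_C]
          simp [θ]
        · rw [RingHom.comp_apply, ev_C, eval₂_X]
          simp [θ]
      exact congrArg (fun f => f p) h5
    · rw [ev_X]
      simp [θ]
  rw [h4, RingHom.coe_comp]
  exact Function.Injective.comp hind hθ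

theorem chi_cl (htop : IntermediateField.adjoin M {w₁, w₂} = ⊤) :
    Subfield.closure (Set.range (ev (algebraMap M K) (w₁, w₂))) = ⊤ := by
  set Cf := Subfield.closure (Set.range (ev (algebraMap M K) (w₁, w₂))) with hCf
  have hv : ∀ p, ev (algebraMap M K) (w₁, w₂) p ∈ Cf := fun p => Subfield.subset_closure ⟨p, rfl⟩
  have hMC : ∀ a : M, algebraMap M K a ∈ Cf := by
    intro a
    have := hv (C (C a))
    rwa [ev_C, eval₂_C] at this
  rw [eq_top_iff]
  intro z _
  have h0 : IntermediateField.adjoin M {w₁, w₂} ≤ Cf.toIntermediateField hMC := by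
    rw [IntermediateField.adjoin_le_iff]
    rintro x (hx | hx)
    · rw [hx]
      have := hv (C X)
      rw [ev_C, eval₂_X] at this
      exact this
    · rw [Set.mem_singleton_iff] at hx
      rw [hx]
      have := hv X
      rw [ev_X] at this
      exact this
  rw [htop] at h0
  exact h0 trivial

theorem trdeg_two {d : ℕ} (hd : Algebra.trdeg ℚ M = d) (hind : AlgebraicIndependent M ![w₁, w₂])
    (htop : IntermediateField.adjoin M {w₁, w₂} = ⊤) : Algebra.trdeg ℚ K = (d + 2 : ℕ) := by
  have h1 := trdeg_add_eq ℚ M (A := K)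
  have h2 : Algebra.IsAlgebraic (IntermediateField.adjoin M {w₁, w₂}) K := by
    rw [htop]
    refine ⟨fun z => ?_⟩
    have : z = algebraMap (⊤ : IntermediateField M K) K ⟨z, trivial⟩ := rfl
    rw [this]
    exact isAlgebraic_algebraMap _
  have h3 : IsTranscendenceBasis M ![w₁, w₂] := by
    rw [isTranscendenceBasis_iff_algebraicIndependent_isAlgebraic]
    refine ⟨hind, ?_⟩
    have hr : Set.range ![w₁, w₂] = {w₁, w₂} := by
      rw [Matrix.range_cons, Matrix.range_cons, Matrix.range_empty, Set.union_empty]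
      rfl
    rw [hr]
    exact (IsFractionRing.comap_isAlgebraic_iff (A := Algebra.adjoin M ({w₁, w₂} : Set K))
      (K := IntermediateField.adjoin M {w₁, w₂}) (C := K)).2 h2
  have h4 := h3.lift_cardinalMk_eq_trdeg
  have h5 : Algebra.trdeg M K = 2 := by simpa using h4.symm
  rw [h5, hd] at h1
  rw [← h1]
  push_cast
  rfl

theorem fg_two (hM : FG M) (htop : IntermediateField.adjoin M {w₁, w₂} = ⊤) : FG K := by
  classical
  obtain ⟨S, hS⟩ := hM
  refine ⟨insert w₁ (insert w₂ (S.image (algebraMap M K))), ?_⟩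
  set Cf := Subfield.closure ((insert w₁ (insert w₂ (S.image (algebraMap M K))) : Finset K) : Set K)
    with hCf
  have h1 : w₁ ∈ Cf := Subfield.subset_closure (by simp)
  have h2 : w₂ ∈ Cf := Subfield.subset_closure (by simp)
  have hMC : ∀ a : M, algebraMap M K a ∈ Cf := by
    intro a
    have ha : a ∈ Subfield.closure (S : Set M) := by rw [hS]; trivial
    have h1 : Subfield.closure (S : Set M) ≤ Cf.comap (algebraMap M K) := by
      rw [Subfield.closure_le]
      intro s hs
      refine Subfield.subset_closure ?_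
      simp only [Finset.coe_insert, Finset.coe_image]
      exact Or.inr (Or.inr ⟨s, hs, rfl⟩)
    exact h1 ha
  rw [eq_top_iff]
  intro z _
  have h0 : IntermediateField.adjoin M {w₁, w₂} ≤ Cf.toIntermediateField hMC := by
    rw [IntermediateField.adjoin_le_iff]
    rintro x (hx | hx)
    · rw [hx]
      exact h1
    · rw [Set.mem_singleton_iff] at hx
      rw [hx]
      exact h2
  rw [htop] at h0
  exact h0 trivial

/-- the map of the ring of the plane -/
noncomputable def ph2 (A₀ : Type) [CommRing A₀] [Algebra A₀ M] (w₁ w₂ : K) : A₀[X][X] →+* K :=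
  ev ((algebraMap M K).comp (algebraMap A₀ M)) (w₁, w₂)

theorem ph2_eq (A₀ : Type) [CommRing A₀] [Algebra A₀ M] :
    ph2 (M := M) A₀ w₁ w₂ = (ev (algebraMap M K) (w₁, w₂)).comp (mp A₀ M) := by
  unfold ph2
  apply Polynomial.ringHom_ext
  · intro p
    have h : (ev ((algebraMap M K).comp (algebraMap A₀ M)) (w₁, w₂)).comp C =
        ((ev (algebraMap M K) (w₁, w₂)).comp (mp A₀ M)).comp C := by
      apply Polynomial.ringHom_ext
      · intro a
        rw [RingHom.comp_apply, RingHom.comp_apply, RingHom.comp_apply, mp_CC, ev_C, ev_C,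
          eval₂_C, eval₂_C]
        rfl
      · rw [RingHom.comp_apply, RingHom.comp_apply, RingHom.comp_apply, mp_CX, ev_C, ev_C,
          eval₂_X, eval₂_X]
    exact congrArg (fun f => f p) h
  · rw [RingHom.comp_apply, mp_X, ev_X, ev_X]

theorem ph2_frac (A₀ : Type) [CommRing A₀] [IsDomain A₀] [Algebra A₀ M] [IsFractionRing A₀ M]
    (hind : AlgebraicIndependent M ![w₁, w₂])
    (htop : IntermediateField.adjoin M {w₁, w₂} = ⊤) :
    letI : Algebra A₀[X][X] K := (ph2 (M := M) A₀ w₁ w₂).toAlgebra
    IsFractionRing A₀[X][X] K := by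
  letI : Algebra A₀[X][X] K := (ph2 (M := M) A₀ w₁ w₂).toAlgebra
  refine frac_of_closure (R := A₀[X][X]) (M := K) ?_ ?_
  · show Function.Injective (ph2 (M := M) A₀ w₁ w₂)
    rw [ph2_eq, RingHom.coe_comp]
    exact (chi_inj hind).comp mp_inj
  · show Subfield.closure (Set.range (ph2 (M := M) A₀ w₁ w₂)) = ⊤
    rw [ph2_eq]
    exact clos _ (fun a => by rw [ev_C, eval₂_C]) (chi_cl htop)

end

end Pool.Agent.K3h71.NP
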