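import Pool.Agent.K3h71.NP.Sm
import Pool.Agent.K3h82.CP.Nt

/-! The limit of the averages for the products. -/

set_option autoImplicit false
set_option linter.all false
set_option maxHeartbeats 800000

namespace Pool.Agent.K3h71.NP

open Polynomial NumberField IsDedekindDomain Filter Topology Pool.Agent.R410.NG
open Pool.Agent.K3h82.CP
open Pool.Agent.R410.LW (FG ev ev_C ev_X ev_eq)
open Pool.Agent.R410.BS (cF cF_le cB cB_nonneg hom_le)
open Pool.Agent.Y707.PR (HasResidue series)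

section
variable {R S : Type} [CommRing R] [CommRing S]

theorem gg_map {r : ℕ} (n m : Fin r → ℕ) (G : Fin r → R[X][X]) (φ : R →+* S)
    (s : Σ i : Fin r, Fin (n i)) :
    (gg n m G s).map φ = gg n m (fun i => (G i).map (mapRingHom φ)) s := tup_map φ _ _

theorem gg_spec [Nontrivial R] {r : ℕ} {n m : Fin r → ℕ} (hn : ∀ i, 0 < n i) (hm : ∀ i, 0 < m i)
    {G : Fin r → R[X][X]} (hG : ∀ i, IsCab (n i) (m i) (G i)) (s : Σ i : Fin r, Fin (n i)) :
    (gg n m G s).Monic ∧ (gg n m G s).natDegree = d3 n m s :=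
  tup_spec (hn s.1) (hm s.1) (hG s.1) s.2

theorem VV_map (f : R →+* S) (a a' : R[X][X]) :
    (VV a a').map (mapRingHom (mapRingHom f)) =
      VV (a.map (mapRingHom f)) (a'.map (mapRingHom f)) := by
  unfold VV
  have h : (mapRingHom (mapRingHom f)).comp (C : R[X] →+* R[X][X]) =
      (C : S[X] →+* S[X][X]).comp (mapRingHom f) := by
    refine RingHom.ext fun p => ?_
    rw [RingHom.comp_apply, RingHom.comp_apply, coe_mapRingHom, Polynomial.map_C]
  rw [Polynomial.map_sub, Polynomial.map_map, Polynomial.map_map, h, Polynomial.map_C,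
    coe_mapRingHom (mapRingHom f)]

theorem VV_monic [Nontrivial R] {a a' : R[X][X]} (h : a'.Monic) (h0 : 0 < a'.natDegree) :
    (VV a a').Monic := by
  unfold VV
  refine (h.map C).sub_of_left ?_
  refine degree_C_le.trans_lt ?_
  rw [degree_eq_natDegree (h.map C).ne_zero, h.natDegree_map]
  exact_mod_cast h0

end

section
variable {M K : Type} [Field M] [CharZero M] [Field K] [CharZero K] [Algebra M K] {w₁ w₂ : K}

/-- the limit for a ring of coefficients -/
theorem limit_gen {k : Type} [Field k] [NumberField k] [Algebra k M] (hM : FG M) {d : ℕ}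
    (hd : Algebra.trdeg ℚ M = d) (hS : StmSumW) (hV : StmCntV) (hAV : StmAsyV)
    (hind : AlgebraicIndependent M ![w₁, w₂])
    (htop : IntermediateField.adjoin M {w₁, w₂} = ⊤)
    {r : ℕ} {n m : Fin (r + 1) → ℕ} (hn : ∀ i, 0 < n i) (hm : ∀ i, 1 < m i)
    (hc : ∀ i, (n i).Coprime (m i)) {A : Fin (r + 1) → M[X][X]}
    (A₀ : Type) [CommRing A₀] [IsDomain A₀] [Algebra A₀ M] [IsFractionRing A₀ M]
    [Algebra.FiniteType ℤ A₀] (ρ₀ : 𝓞 k →+* A₀)
    (hρ₀ : ∀ z, algebraMap A₀ M (ρ₀ z) = algebraMap k M z) (a : Fin (r + 1) → A₀[X][X])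
    (ha : ∀ i, (a i).map (mapRingHom (algebraMap A₀ M)) = A i)
    (hac : ∀ i, IsCab (n i) (m i) (a i))
    (R : Type) [CommRing R] [IsDomain R] [Algebra.FiniteType ℤ R] [Algebra R K] [IsFractionRing R K]
    [Algebra (𝓞 k) R] (hk : ∀ z : 𝓞 k, algebraMap R K (algebraMap (𝓞 k) R z) =
      algebraMap M K (algebraMap k M z)) {G : Fin (r + 1) → R[X][X]}
    (hG : ∀ i, IsCab (n i) (m i) (G i))
    (hGK : ∀ i, (G i).map (mapRingHom (algebraMap R K)) = net (up2 K (A i)) w₁ w₂) {N : R}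
    (hN : N ≠ 0) (S : Finset (HeightOneSpectrum (𝓞 k))) :
    Tendsto (Pool.Agent.W353.FB.average S fun v => avg (w4 n m) (gg n m G) N (d + 2) v) atTop
      (𝓝 (∑ i : Fin r, ((nF (VV (A i.succ) (A 0)) : ℝ) - 1))) := by
  classical
  have hm' : ∀ i, 0 < m i := fun i => by have := hm i; omega
  -- the ring of the plane
  let φ : A₀[X][X] →+* K := ph2 (M := M) A₀ w₁ w₂
  let _ : Algebra A₀[X][X] K := φ.toAlgebra
  have _ : IsFractionRing A₀[X][X] K := ph2_frac A₀ hind htop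
  have htr := trdeg_two hd hind htop
  let ρ : 𝓞 k →+* A₀[X][X] := (C.comp C).comp ρ₀
  let _ : Algebra (𝓞 k) A₀[X][X] := ρ.toAlgebra
  have hft' : Algebra.FiniteType ℤ A₀[X][X] := inferInstance
  have hft'' := Pool.Agent.R410.LW.ft_int _ hft'
  have hP0 : (∏ i, n i) ≠ 0 := Finset.prod_ne_zero_iff.2 fun i _ => (hn i).ne'
  have hPF : ∀ (F : Type) [Field F], ((∏ i, n i : ℕ) : F) ≠ 0 → ∀ i, ((n i : ℕ) : F) ≠ 0 := by
    intro F _ h i
    rw [Nat.cast_prod] at h
    exact Finset.prod_ne_zero_iff.1 h i (Finset.mem_univ i)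
  have hnF : ∀ i j, nF ((VV (a i) (a j)).map (mapRingHom (mapRingHom (algebraMap A₀ M)))) =
      nF (VV (A i) (A j)) := by
    intro i j
    rw [VV_map]
    rw [ha, ha]
  obtain ⟨C3, hC3, g3⟩ := hom_le (R := A₀[X][X]) (K := K) (IsFractionRing.injective A₀[X][X] K)
    (e := d + 2) (by rw [htr])
  choose cw hw using fun i => isWt_wC (hn i) (hm' i) (hc i)
  have hw4 := isWt_w4 hw
  have hsp : ∀ (F : Type) [Field F] (φ : A₀[X][X] →+* F) s,
      ((gg n m (fun i => netG (a i)) s).map φ).Monic ∧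
        ((gg n m (fun i => netG (a i)) s).map φ).natDegree = d3 n m s := by
    intro F _ φ s
    rw [gg_map]
    exact gg_spec hn hm' (fun i => (netG_cab (hn i) (hm i) (hac i)).map φ) s
  -- the asymptotic value
  have h0 : Asy (fun F _ _ => sT (w4 n m) (gg n m fun i => netG (a i)) 1 F) (d + 2)
      (∑ i : Fin r, ((nF (VV (A i.succ) (A 0)) : ℝ) - 1)) := by
    have t2 : Asy (fun F _ _ => ∑ i : Fin r,
        ((Nat.card {φ : A₀[X][X][X] →+* F // φ (VV (a i.succ) (a 0)) = 0} : ℝ) -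
        (Nat.card F : ℝ) * ((Nat.card F : ℝ) * Nat.card (A₀ →+* F)))) (d + 2)
        (∑ i : Fin r, ((nF (VV (A i.succ) (A 0)) : ℝ) - 1)) := by
      refine Asy.sum Finset.univ (fun i : Fin r => fun F _ _ =>
        ((Nat.card {φ : A₀[X][X][X] →+* F // φ (VV (a i.succ) (a 0)) = 0} : ℝ) -
        (Nat.card F : ℝ) * ((Nat.card F : ℝ) * Nat.card (A₀ →+* F)))) _ fun i _ => ?_
      have s1 := hAV M A₀ d hd (VV (a i.succ) (a 0)) (VV_monic (hac 0).monic (by
        rw [(hac 0).deg]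
        exact hn 0))
      rw [hnF] at s1
      have s2 := (asy_hom hM hd A₀).mulq.mulq.neg
      have s3 := s1.add s2
      rw [← sub_eq_add_neg] at s3
      refine s3.congr 1 one_ne_zero fun F _ _ _ => ?_
      rw [sub_eq_add_neg]
    refine t2.near ⟨C3 * c4 cw, ∏ i, n i, mul_nonneg hC3 hw4.c0, hP0, fun F _ _ hF => ?_⟩
    have hfA : Finite (A₀ →+* F) := inferInstance
    have hfXX : Finite (A₀[X][X] →+* F) := inferInstance
    let _ : Fintype (A₀[X][X] →+* F) := Fintype.ofFinite _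
    rw [← sum_main hS hV hn hm hac (hPF F hF), sT_eq, ← Finset.sum_sub_distrib]
    have hs0 : 0 ≤ √(Nat.card F : ℝ) := Real.sqrt_nonneg _
    have e1 : ∀ φ : A₀[X][X] →+* F, |(if φ 1 ≠ 0 then
        w4 n m F (fun s => (gg n m (fun i => netG (a i)) s).map φ) else 0) -
        wC (n 0) (m 0) F (fun t => (gg n m (fun i => netG (a i)) ⟨0, t⟩).map φ) *
        (1 + ∑ i : Fin r, (Nat.card F : ℝ)⁻¹ * wC (n i.succ) (m i.succ) F
          (fun t => (gg n m (fun i => netG (a i)) ⟨i.succ, t⟩).map φ))| * √(Nat.card F : ℝ) ≤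
        c4 cw := by
      intro φ
      rw [if_pos (by rw [map_one]; exact one_ne_zero)]
      exact w4_near hw F _ (hsp F φ)
    calc |∑ φ : A₀[X][X] →+* F, ((if φ 1 ≠ 0 then
          w4 n m F (fun s => (gg n m (fun i => netG (a i)) s).map φ) else 0) -
          wC (n 0) (m 0) F (fun t => (gg n m (fun i => netG (a i)) ⟨0, t⟩).map φ) *
          (1 + ∑ i : Fin r, (Nat.card F : ℝ)⁻¹ * wC (n i.succ) (m i.succ) F
            (fun t => (gg n m (fun i => netG (a i)) ⟨i.succ, t⟩).map φ)))| * √(Nat.card F : ℝ) ≤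
        (∑ φ : A₀[X][X] →+* F, |(if φ 1 ≠ 0 then
          w4 n m F (fun s => (gg n m (fun i => netG (a i)) s).map φ) else 0) -
          wC (n 0) (m 0) F (fun t => (gg n m (fun i => netG (a i)) ⟨0, t⟩).map φ) *
          (1 + ∑ i : Fin r, (Nat.card F : ℝ)⁻¹ * wC (n i.succ) (m i.succ) F
            (fun t => (gg n m (fun i => netG (a i)) ⟨i.succ, t⟩).map φ))|) * √(Nat.card F : ℝ) :=
          mul_le_mul_of_nonneg_right (Finset.abs_sum_le_sum_abs _ _) hs0
      _ ≤ ∑ φ : A₀[X][X] →+* F, c4 cw := by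
          rw [Finset.sum_mul]
          exact Finset.sum_le_sum fun φ _ => e1 φ
      _ = (Nat.card (A₀[X][X] →+* F) : ℝ) * c4 cw := by
          rw [Finset.sum_const, Finset.card_univ, nsmul_eq_mul, Nat.card_eq_fintype_card]
      _ ≤ (C3 * (Nat.card F : ℝ) ^ (d + 2)) * c4 cw :=
          mul_le_mul_of_nonneg_right (g3 F) hw4.c0
      _ = _ := by ring
  obtain ⟨κ', iκ, L, iL, nL, α, hα, C0, N0, hC0, hN0, hasy⟩ := h0
  have hφC : (φ.comp C).comp C = (algebraMap M K).comp (algebraMap A₀ M) := by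
    refine RingHom.ext fun z => ?_
    show ph2 (M := M) A₀ w₁ w₂ (C (C z)) = _
    unfold ph2
    rw [ev_C, eval₂_C]
  have hφX : φ X = w₂ := by
    show ph2 (M := M) A₀ w₁ w₂ X = _
    unfold ph2
    rw [ev_X]
  have hφCX : φ (C X) = w₁ := by
    show ph2 (M := M) A₀ w₁ w₂ (C X) = _
    unfold ph2
    rw [ev_C, eval₂_X]
  have hgB : ∀ s, (gg n m G s).map (algebraMap R K) =
      (gg n m (fun i => netG (a i)) s).map (algebraMap A₀[X][X] K) := by
    intro s
    rw [gg_map, gg_map]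
    unfold gg
    congr 1
    show _ = (netG (a s.1)).map (mapRingHom φ)
    rw [netG_map, hφX, hφCX, hφC]
    show (G s.1).map (mapRingHom (algebraMap R K)) = _
    rw [hGK, ← ha s.1]
    unfold up2
    rw [coe_mapRingHom, Polynomial.map_map, mapRingHom_comp]
  have hrho : (algebraMap R K).comp (algebraMap (𝓞 k) R) =
      (algebraMap A₀[X][X] K).comp (algebraMap (𝓞 k) A₀[X][X]) := by
    refine RingHom.ext fun z => ?_
    show algebraMap R K (algebraMap (𝓞 k) R z) = ph2 (M := M) A₀ w₁ w₂ (C (C (ρ₀ z)))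
    unfold ph2
    rw [hk, ev_C, eval₂_C, ← hρ₀]
    rfl
  refine natural_models hw4 (e := d + 2) htr.le hrho (g' := gg n m fun i => netG (a i)) hgB
    (fun s => gg_spec hn hm' hG s) hN (N' := (1 : A₀[X][X])) one_ne_zero L α hα ?_
    ⟨C0, N0, hC0, hN0, fun F _ _ hF => hasy F hF⟩ S
  refine ⟨C3 * c4 cw, ∏ i, n i, mul_nonneg hC3 hw4.c0, hP0, fun F _ _ hF ψ₀ => ?_⟩
  let _ := Fintype.ofFinite F
  have hfA : Finite (A₀ →+* F) := inferInstance
  let _ := Fintype.ofFinite (A₀ →+* F)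
  have hfXX : Finite (A₀[X][X] →+* F) := inferInstance
  let _ : Fintype (A₀[X][X] →+* F) := Fintype.ofFinite _
  have e0 := sum_oneQ (F := F) (a 0) (fun ψ => ψ.comp (ρ₀) = ψ₀)
  have hW : ∀ φ : A₀[X][X] →+* F, wC (n 0) (m 0) F
      (fun t => (gg n m (fun i => netG (a i)) ⟨0, t⟩).map φ) =
      -tC F (net ((a 0).map (mapRingHom ((φ.comp C).comp C))) (φ (C X)) (φ X)) := fun φ =>
    wC_net (hn 0) (hm 0) (hac 0) (hPF F hF 0) φ
  have e1 : ∀ φ : A₀[X][X] →+* F,
      |(if φ.comp (algebraMap (𝓞 k) A₀[X][X]) = ψ₀ ∧ φ 1 ≠ 0 then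
        w4 n m F (fun s => (gg n m (fun i => netG (a i)) s).map φ) else 0) +
      (if ((φ.comp C).comp C).comp (ρ₀) = ψ₀ then
        tC F (net ((a 0).map (mapRingHom ((φ.comp C).comp C))) (φ (C X)) (φ X)) else 0)| ≤
        c4 cw := by
    intro φ
    by_cases h : ((φ.comp C).comp C).comp (ρ₀) = ψ₀
    · have h' : φ.comp (algebraMap (𝓞 k) A₀[X][X]) = ψ₀ ∧ φ 1 ≠ 0 :=
        ⟨h, by rw [map_one]; exact one_ne_zero⟩
      rw [if_pos h, if_pos h']
      have e2 := w4_near1 hw F _ (hsp F φ)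
      rw [hW φ, sub_neg_eq_add] at e2
      exact e2
    · have h' : ¬ (φ.comp (algebraMap (𝓞 k) A₀[X][X]) = ψ₀ ∧ φ 1 ≠ 0) := fun h'' => h h''.1
      rw [if_neg h, if_neg h', add_zero, abs_zero]
      exact hw4.c0
  have e3 : sR (w4 n m) (algebraMap (𝓞 k) A₀[X][X]) (gg n m fun i => netG (a i)) 1 F ψ₀ =
      ∑ φ : A₀[X][X] →+* F, ((if φ.comp (algebraMap (𝓞 k) A₀[X][X]) = ψ₀ ∧ φ 1 ≠ 0 then
        w4 n m F (fun s => (gg n m (fun i => netG (a i)) s).map φ) else 0) +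
      (if ((φ.comp C).comp C).comp (ρ₀) = ψ₀ then
        tC F (net ((a 0).map (mapRingHom ((φ.comp C).comp C))) (φ (C X)) (φ X)) else 0)) := by
    rw [Finset.sum_add_distrib, e0, add_zero, sR_eq]
  rw [e3]
  calc |∑ φ : A₀[X][X] →+* F, ((if φ.comp (algebraMap (𝓞 k) A₀[X][X]) = ψ₀ ∧ φ 1 ≠ 0 then
        w4 n m F (fun s => (gg n m (fun i => netG (a i)) s).map φ) else 0) +
      (if ((φ.comp C).comp C).comp (ρ₀) = ψ₀ then
        tC F (net ((a 0).map (mapRingHom ((φ.comp C).comp C))) (φ (C X)) (φ X)) else 0))| ≤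
      ∑ φ : A₀[X][X] →+* F, c4 cw :=
        (Finset.abs_sum_le_sum_abs _ _).trans (Finset.sum_le_sum fun φ _ => e1 φ)
    _ = (Nat.card (A₀[X][X] →+* F) : ℝ) * c4 cw := by
        rw [Finset.sum_const, Finset.card_univ, nsmul_eq_mul, Nat.card_eq_fintype_card]
    _ ≤ (C3 * (Nat.card F : ℝ) ^ (d + 2)) * c4 cw :=
        mul_le_mul_of_nonneg_right (g3 F) hw4.c0
    _ = _ := by ring


/-- **The limit.** -/
theorem limit_net {k : Type} [Field k] [NumberField k] [Algebra k M] (hM : FG M) {d : ℕ}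
    (hd : Algebra.trdeg ℚ M = d) (hS : StmSumW) (hV : StmCntV) (hAV : StmAsyV)
    (hind : AlgebraicIndependent M ![w₁, w₂])
    (htop : IntermediateField.adjoin M {w₁, w₂} = ⊤)
    {r : ℕ} {n m : Fin (r + 1) → ℕ} (hn : ∀ i, 0 < n i) (hm : ∀ i, 1 < m i)
    (hc : ∀ i, (n i).Coprime (m i)) {A : Fin (r + 1) → M[X][X]} (hA : ∀ i, IsCab (n i) (m i) (A i))
    (R : Type) [CommRing R] [IsDomain R] [Algebra.FiniteType ℤ R] [Algebra R K] [IsFractionRing R K]
    [Algebra (𝓞 k) R] (hk : ∀ z : 𝓞 k, algebraMap R K (algebraMap (𝓞 k) R z) =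
      algebraMap M K (algebraMap k M z)) {G : Fin (r + 1) → R[X][X]}
    (hG : ∀ i, IsCab (n i) (m i) (G i))
    (hGK : ∀ i, (G i).map (mapRingHom (algebraMap R K)) = net (up2 K (A i)) w₁ w₂) {N : R}
    (hN : N ≠ 0) (S : Finset (HeightOneSpectrum (𝓞 k))) :
    Tendsto (Pool.Agent.W353.FB.average S fun v => avg (w4 n m) (gg n m G) N (d + 2) v) atTop
      (𝓝 (∑ i : Fin r, ((nF (VV (A i.succ) (A 0)) : ℝ) - 1))) := by
  classical
  obtain ⟨A₀, hA₀, hft, hfr, hAk⟩ := exists_ringk (k := k) hM (Finset.univ.biUnion fun i => cfs (A i))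
  choose a ha using fun i => lift_mp A₀ (A i) (fun t ht => hA₀ t
    (Finset.mem_biUnion.2 ⟨i, Finset.mem_univ i, ht⟩))
  have hAinj : Function.Injective (algebraMap A₀ M) := IsFractionRing.injective A₀ M
  have hac : ∀ i, IsCab (n i) (m i) (a i) := by
    intro i
    have := hA i
    rw [← ha i] at this
    exact IsCab.reflect hAinj this
  have hft2 := Pool.Agent.R410.LW.ft_int _ hft
  exact limit_gen hM hd hS hV hAV hind htop hn hm hc A₀ (rho hAk) (fun z => rfl) a ha hac R hk hG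
    hGK hN S

end

end Pool.Agent.K3h71.NP
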