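import Pool.Agent.K3h71.NP.Fl

/-! The sum of the traces on `H²` over the points of the plane. -/

set_option autoImplicit false
set_option linter.all false
set_option maxHeartbeats 400000

namespace Pool.Agent.K3h71.NP

open Polynomial Pool.Agent.K3h82.CP Pool.Agent.R410.NG
open Pool.Agent.R410.LW (FG frac_of_closure ev ev_C ev_X ev_eq)

section
variable {R S : Type} [CommRing R] [CommRing S] {n m : ℕ}

theorem net_map (φ : R →+* S) (A : R[X][X]) (w₁ w₂ : R) :
    (net A w₁ w₂).map (mapRingHom φ) = net (A.map (mapRingHom φ)) (φ w₁) (φ w₂) := by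
  unfold net
  rw [Polynomial.map_add, Polynomial.map_C, coe_mapRingHom, Polynomial.map_add, Polynomial.map_mul,
    Polynomial.map_C, Polynomial.map_C, Polynomial.map_X]

theorem low_net (hn : 0 < n) (hm : 1 < m) (w₁ w₂ : R) :
    IsLow n m (C (C w₁ + C w₂ * X) : R[X][X]) := by
  intro j hj
  rw [coeff_C] at hj ⊢
  by_cases h : j = 0
  · rw [if_pos h] at hj ⊢
    have h1 : (C w₁ + C w₂ * X : R[X]).natDegree ≤ 1 := by
      refine (natDegree_add_le _ _).trans (max_le ?_ ?_)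
      · rw [natDegree_C]
        exact Nat.zero_le _
      · exact (natDegree_C_mul_le _ _).trans natDegree_X_le
    rw [h, mul_zero, add_zero]
    refine (Nat.mul_le_mul_left n h1).trans_lt ?_
    exact Nat.mul_lt_mul_of_pos_left hm hn
  · rw [if_neg h] at hj
    exact (hj rfl).elim

theorem net_cab [Nontrivial R] (hn : 0 < n) (hm : 1 < m) {A : R[X][X]} (hA : IsCab n m A) (w₁ w₂ : R) :
    IsCab n m (net A w₁ w₂) :=
  hA.add_low hn (by omega) (low_net hn hm w₁ w₂)

end

section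
variable {A₀ : Type} [CommRing A₀] {F : Type} [Field F] {n m : ℕ}

/-- the curves over the plane -/
noncomputable def netG (a : A₀[X][X]) : (A₀[X][X])[X][X] :=
  net (a.map (mapRingHom (C.comp C))) (C X) X

theorem netG_map (a : A₀[X][X]) (φ : A₀[X][X] →+* F) : (netG a).map (mapRingHom φ) =
    net (a.map (mapRingHom ((φ.comp C).comp C))) (φ (C X)) (φ X) := by
  unfold netG
  rw [net_map, Polynomial.map_map, mapRingHom_comp]
  rfl

theorem netG_cab [Nontrivial A₀] (hn : 0 < n) (hm : 1 < m) {a : A₀[X][X]} (ha : IsCab n m a) :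
    IsCab n m (netG a) :=
  net_cab hn hm (ha.map _) _ _

/-- minus the trace -/
noncomputable def tC (F : Type) [Field F] (a : F[X][X]) : ℝ :=
  (Nat.card F : ℝ) - Nat.card {z : F × F // evalEval z.1 z.2 a = 0}

theorem wC_net [Nontrivial A₀] (hn : 0 < n) (hm : 1 < m) {a : A₀[X][X]} (ha : IsCab n m a)
    (hF : ((n : ℕ) : F) ≠ 0) (φ : A₀[X][X] →+* F) :
    wC n m F (fun j => (tup n m (netG a) j).map φ) =
      -tC F (net (a.map (mapRingHom ((φ.comp C).comp C))) (φ (C X)) (φ X)) := by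
  have e : (fun j => (tup n m (netG a) j).map φ) = tup n m ((netG a).map (mapRingHom φ)) :=
    funext fun j => tup_map φ _ j
  unfold wC tC
  rw [if_neg hF, e, cabOf_tup ((netG_cab hn hm ha).map φ), netG_map]
  ring

theorem sum_pair (hS : StmSumW) (hV : StmCntV) [Fintype F] [Fintype (A₀ →+* F)]
    [Fintype (A₀[X][X] →+* F)] (a a' : A₀[X][X]) :
    (∑ φ : A₀[X][X] →+* F, tC F (net (a.map (mapRingHom ((φ.comp C).comp C))) (φ (C X)) (φ X)) *
      tC F (net (a'.map (mapRingHom ((φ.comp C).comp C))) (φ (C X)) (φ X))) =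
    (Nat.card F : ℝ) * Nat.card {φ : A₀[X][X][X] →+* F // φ (VV a a') = 0} -
      (Nat.card F : ℝ) ^ 3 * Nat.card (A₀ →+* F) := by
  rw [hV A₀ F a a']
  have e1 := fun ψ : A₀ →+* F => hS F (a.map (mapRingHom ψ)) (a'.map (mapRingHom ψ))
  refine (Fintype.sum_equiv (planeE (A₀ := A₀) (F := F)) _ (fun w =>
    tC F (net (a.map (mapRingHom w.1)) w.2.1 w.2.2) *
      tC F (net (a'.map (mapRingHom w.1)) w.2.1 w.2.2)) (fun φ => rfl)).trans ?_
  rw [Fintype.sum_prod_type]
  have e2 : ∀ ψ : A₀ →+* F, (∑ w : F × F, tC F (net (a.map (mapRingHom ψ)) w.1 w.2) *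
      tC F (net (a'.map (mapRingHom ψ)) w.1 w.2)) = _ := e1
  refine (Finset.sum_congr rfl fun ψ _ => e2 ψ).trans ?_
  rw [Finset.sum_sub_distrib, ← Finset.mul_sum, Finset.sum_const, Finset.card_univ, nsmul_eq_mul,
    Nat.card_eq_fintype_card (α := A₀ →+* F)]
  ring

theorem evalEval_net (a : F[X][X]) (w₁ w₂ x y : F) :
    evalEval x y (net a w₁ w₂) = evalEval x y a + (w₁ + w₂ * x) := by
  unfold net
  rw [evalEval_add, evalEval_C, eval_add, eval_C, eval_mul, eval_C, eval_X]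

theorem sum_tC [Fintype F] (a : F[X][X]) : (∑ w : F × F, tC F (net a w.1 w.2)) = 0 := by
  classical
  have e1 : Nat.card {z : (F × F) × (F × F) // evalEval z.2.1 z.2.2 (net a z.1.1 z.1.2) = 0} =
      Nat.card (F × (F × F)) := by
    refine Nat.card_congr
      { toFun := fun z => (z.1.1.2, z.1.2)
        invFun := fun z => ⟨((-(evalEval z.2.1 z.2.2 a + z.1 * z.2.1), z.1), z.2), by
          rw [evalEval_net]
          ring⟩
        left_inv := ?_
        right_inv := fun z => rfl }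
    rintro ⟨⟨⟨w₁, w₂⟩, ⟨x, y⟩⟩, h⟩
    have h' : evalEval x y (net a w₁ w₂) = 0 := h
    rw [evalEval_net] at h'
    have h1 : -(evalEval x y a + w₂ * x) = w₁ := by linear_combination -h'
    simp only [h1]
  have e2 : Nat.card {z : (F × F) × (F × F) // evalEval z.2.1 z.2.2 (net a z.1.1 z.1.2) = 0} =
      ∑ w : F × F, Nat.card {z : F × F // evalEval z.1 z.2 (net a w.1 w.2) = 0} := by
    rw [← Nat.card_sigma]
    refine Nat.card_congr
      { toFun := fun z => ⟨z.1.1, ⟨z.1.2, z.2⟩⟩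
        invFun := fun z => ⟨(z.1, z.2.1), z.2.2⟩
        left_inv := fun z => rfl
        right_inv := fun z => rfl }
  unfold tC
  rw [Finset.sum_sub_distrib, Finset.sum_const, Finset.card_univ, nsmul_eq_mul, Fintype.card_prod,
    ← Nat.cast_sum, ← e2, e1, Nat.card_prod, Nat.card_prod, Nat.card_eq_fintype_card]
  push_cast
  ring

theorem sum_one [Fintype F] [Fintype (A₀ →+* F)] [Fintype (A₀[X][X] →+* F)] (a : A₀[X][X]) :
    (∑ φ : A₀[X][X] →+* F,
      tC F (net (a.map (mapRingHom ((φ.comp C).comp C))) (φ (C X)) (φ X))) = 0 := by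
  refine (Fintype.sum_equiv (planeE (A₀ := A₀) (F := F)) _ (fun w =>
    tC F (net (a.map (mapRingHom w.1)) w.2.1 w.2.2)) (fun φ => rfl)).trans ?_
  rw [Fintype.sum_prod_type]
  have e2 : ∀ ψ : A₀ →+* F, (∑ w : F × F, tC F (net (a.map (mapRingHom ψ)) w.1 w.2)) = 0 :=
    fun ψ => sum_tC _
  refine (Finset.sum_congr rfl fun ψ _ => e2 ψ).trans ?_
  rw [Finset.sum_const_zero]

open Classical in
theorem sum_oneQ [Fintype F] [Fintype (A₀ →+* F)] [Fintype (A₀[X][X] →+* F)] (a : A₀[X][X])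
    (Q : (A₀ →+* F) → Prop) :
    (∑ φ : A₀[X][X] →+* F, if Q ((φ.comp C).comp C) then
      tC F (net (a.map (mapRingHom ((φ.comp C).comp C))) (φ (C X)) (φ X)) else 0) = 0 := by
  refine (Fintype.sum_equiv (planeE (A₀ := A₀) (F := F)) _ (fun w =>
    if Q w.1 then tC F (net (a.map (mapRingHom w.1)) w.2.1 w.2.2) else 0) (fun φ => rfl)).trans ?_
  rw [Fintype.sum_prod_type]
  have e2 : ∀ ψ : A₀ →+* F, (∑ w : F × F, if Q ψ then
      tC F (net (a.map (mapRingHom ψ)) w.1 w.2) else 0) = 0 := by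
    intro ψ
    by_cases h : Q ψ
    · simp only [if_pos h]
      exact sum_tC _
    · simp only [if_neg h, Finset.sum_const_zero]
  refine (Finset.sum_congr rfl fun ψ _ => e2 ψ).trans ?_
  rw [Finset.sum_const_zero]

/-- the polynomials -/
noncomputable def gg {R : Type} [CommRing R] {r : ℕ} (n m : Fin r → ℕ) (G : Fin r → R[X][X])
    (s : Σ i : Fin r, Fin (n i)) : R[X] := tup (n s.1) (m s.1) (G s.1) s.2

theorem sum_main [Nontrivial A₀] [Finite F] (hS : StmSumW) (hV : StmCntV) [Finite (A₀ →+* F)]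
    [Fintype (A₀[X][X] →+* F)] {r : ℕ} {n m : Fin (r + 1) → ℕ} (hn : ∀ i, 0 < n i)
    (hm : ∀ i, 1 < m i) {a : Fin (r + 1) → A₀[X][X]} (ha : ∀ i, IsCab (n i) (m i) (a i))
    (hF : ∀ i, ((n i : ℕ) : F) ≠ 0) :
    (∑ φ : A₀[X][X] →+* F,
      wC (n 0) (m 0) F (fun t => (gg n m (fun i => netG (a i)) ⟨0, t⟩).map φ) *
      (1 + ∑ i : Fin r, (Nat.card F : ℝ)⁻¹ * wC (n i.succ) (m i.succ) F
        (fun t => (gg n m (fun i => netG (a i)) ⟨i.succ, t⟩).map φ))) =
      ∑ i : Fin r, ((Nat.card {φ : A₀[X][X][X] →+* F // φ (VV (a i.succ) (a 0)) = 0} : ℝ) -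
        (Nat.card F : ℝ) * ((Nat.card F : ℝ) * Nat.card (A₀ →+* F))) := by
  classical
  let _ := Fintype.ofFinite F
  let _ := Fintype.ofFinite (A₀ →+* F)
  have hq : (Nat.card F : ℝ) ≠ 0 := by
    have : (0 : ℝ) < (Nat.card F : ℝ) := by exact_mod_cast Nat.card_pos
    exact this.ne'
  have h : ∀ (i : Fin (r + 1)) (φ : A₀[X][X] →+* F), wC (n i) (m i) F
      (fun t => (gg n m (fun i => netG (a i)) ⟨i, t⟩).map φ) =
      -tC F (net ((a i).map (mapRingHom ((φ.comp C).comp C))) (φ (C X)) (φ X)) := fun i φ =>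
    wC_net (hn i) (hm i) (ha i) (hF i) φ
  have e1 : ∀ φ : A₀[X][X] →+* F,
      wC (n 0) (m 0) F (fun t => (gg n m (fun i => netG (a i)) ⟨0, t⟩).map φ) *
      (1 + ∑ i : Fin r, (Nat.card F : ℝ)⁻¹ * wC (n i.succ) (m i.succ) F
        (fun t => (gg n m (fun i => netG (a i)) ⟨i.succ, t⟩).map φ)) =
      -tC F (net ((a 0).map (mapRingHom ((φ.comp C).comp C))) (φ (C X)) (φ X)) +
      ∑ i : Fin r, (Nat.card F : ℝ)⁻¹ *
        (tC F (net ((a i.succ).map (mapRingHom ((φ.comp C).comp C))) (φ (C X)) (φ X)) *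
        tC F (net ((a 0).map (mapRingHom ((φ.comp C).comp C))) (φ (C X)) (φ X))) := by
    intro φ
    rw [h 0 φ, mul_add, mul_one, Finset.mul_sum]
    congr 1
    refine Finset.sum_congr rfl fun i _ => ?_
    rw [h i.succ φ]
    ring
  rw [Finset.sum_congr rfl fun φ _ => e1 φ, Finset.sum_add_distrib, Finset.sum_neg_distrib,
    sum_one, neg_zero, zero_add, Finset.sum_comm]
  refine Finset.sum_congr rfl fun i _ => ?_
  rw [← Finset.mul_sum, sum_pair hS hV]
  field_simp

end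

end Pool.Agent.K3h71.NP
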