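import Pool.Agent.K3h82.CP.Fin
import Pool.Agent.R410.NG.Cj

/-!
# Products of the curves `A(X, Y) + w₁ + w₂ X = 0`: definitions and statements

Residue formula for the averages on `H²` for the products of such curves over `K = M(w₁, w₂)`.
-/

set_option autoImplicit false

namespace Pool.Agent.K3h71.NP

open Polynomial Pool.Agent.K3h82.CP Pool.Agent.R410.NG

/-- The number of the irreducible factors up to units. -/
noncomputable def nF {D : Type} [CommMonoidWithZero D] (f : D) : ℕ :=
  Nat.card {p : Associates D // Irreducible p ∧ p ∣ Associates.mk f}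

/-- `A + w₁ + w₂ X`; the outer variable of `R[X][X]` is `Y`. -/
noncomputable def net {R : Type} [CommRing R] (A : R[X][X]) (w₁ w₂ : R) : R[X][X] :=
  A + C (C w₁ + C w₂ * X)

/-- `A'(X, Y) - A(X, Z)` in `R[X][Z][Y]`. -/
noncomputable def VV {R : Type} [CommRing R] (A A' : R[X][X]) : R[X][X][X] := A'.map C - C A

/-- `K₁ = K(x, y)` is the function field of the curve `F(x, y) = 0`. -/
structure IsFun {K K₁ : Type} [Field K] [Field K₁] [Algebra K K₁] (F : K[X][X]) (x y : K₁) :
    Prop where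
  tr : Transcendental K x
  eq : evalEval x y (F.map (mapRingHom (algebraMap K K₁))) = 0
  gen : IntermediateField.adjoin K {x, y} = ⊤

/-! ### The bricks -/

/-- GAUSS: the irreducible factors of a monic polynomial over the fraction field. -/
def StmGauss : Prop :=
  ∀ (R K : Type) [CommRing R] [IsDomain R] [UniqueFactorizationMonoid R] [Field K] [Algebra R K]
    [IsFractionRing R K] (f : R[X]), f.Monic → nF (f.map (algebraMap R K)) = nF f

/-- ASYV: the number of the points of a hypersurface in the affine space of dimension three. -/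
def StmAsyV : Prop :=
  ∀ (M : Type) [Field M] [CharZero M] (A₀ : Type) [CommRing A₀] [IsDomain A₀] [Algebra A₀ M]
    [IsFractionRing A₀ M] [Algebra.FiniteType ℤ A₀] (d : ℕ), Algebra.trdeg ℚ M = d →
    ∀ v : A₀[X][X][X], v.Monic →
      Asy (fun F _ _ => (Nat.card {φ : A₀[X][X][X] →+* F // φ v = 0} : ℝ)) (d + 2)
        (nF (v.map (mapRingHom (mapRingHom (algebraMap A₀ M)))))

/-- LINE: the rank for the pencils `A + ω (X - x₀)`. -/
def StmLine : Prop :=
  ∀ (M K : Type) [Field M] [CharZero M] [Field K] [CharZero K] [Algebra M K] (n m : ℕ)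
    (A : M[X][X]) (x₀ : M) (ω : K) [IsDedekindDomain (AdjoinRoot (FF A (C (X - C x₀)) ω))],
    Transcendental M ω → Gen M ω → 0 < n → 1 < m → n.Coprime m → IsCab n m A →
    1 ≤ nF (A.map (evalRingHom x₀)) ∧
      Module.rank ℤ (Additive (ClassGroup (AdjoinRoot (FF A (C (X - C x₀)) ω)))) =
        ((nF (A.map (evalRingHom x₀)) - 1 : ℕ) : Cardinal)

/-- NETZ: the rank over `K` is zero. -/
def StmNetZ : Prop :=
  ∀ (M K : Type) [Field M] [CharZero M] [Field K] [CharZero K] [Algebra M K] (n m : ℕ)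
    (A : M[X][X]) (w₁ w₂ : K) [IsDedekindDomain (AdjoinRoot (net (up2 K A) w₁ w₂))],
    AlgebraicIndependent M ![w₁, w₂] → IntermediateField.adjoin M {w₁, w₂} = ⊤ →
    0 < n → 1 < m → n.Coprime m → IsCab n m A →
    Module.rank ℤ (Additive (ClassGroup (AdjoinRoot (net (up2 K A) w₁ w₂)))) = 0

/-- FLD: the function field of the curve `A + w₁ + w₂ X = 0` is `M(x, y)(w₂)`. -/
def StmFld : Prop :=
  ∀ (M K K₁ : Type) [Field M] [CharZero M] [Field K] [CharZero K] [Algebra M K] [Field K₁]
    [CharZero K₁] [Algebra K K₁] [Algebra M K₁] [IsScalarTower M K K₁] (A : M[X][X])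
    (w₁ w₂ : K) (x y : K₁), AlgebraicIndependent M ![w₁, w₂] →
    IntermediateField.adjoin M {w₁, w₂} = ⊤ → A.Monic → 0 < A.natDegree →
    IsFun (net (up2 K A) w₁ w₂) x y →
    AlgebraicIndependent M ![x, y] ∧
      Transcendental (IntermediateField.adjoin M {x, y}) (algebraMap K K₁ w₂) ∧
      IntermediateField.adjoin (IntermediateField.adjoin M {x, y}) {algebraMap K K₁ w₂} = ⊤

/-- NETK: the rank over the function field. -/
def StmNetK : Prop :=
  ∀ (M K K₁ : Type) [Field M] [CharZero M] [Field K] [CharZero K] [Algebra M K] [Field K₁]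
    [CharZero K₁] [Algebra K K₁] [Algebra M K₁] [IsScalarTower M K K₁] (n m : ℕ)
    (A A' : M[X][X]) (w₁ w₂ : K) (x y : K₁)
    [IsDedekindDomain (AdjoinRoot (net (up2 K₁ A') (algebraMap K K₁ w₁) (algebraMap K K₁ w₂)))],
    AlgebraicIndependent M ![w₁, w₂] → IntermediateField.adjoin M {w₁, w₂} = ⊤ →
    A.Monic → 0 < A.natDegree → IsFun (net (up2 K A) w₁ w₂) x y →
    0 < n → 1 < m → n.Coprime m → IsCab n m A' →
    1 ≤ nF (VV A A') ∧ Module.rank ℤ (Additive (ClassGroup (AdjoinRoot
      (net (up2 K₁ A') (algebraMap K K₁ w₁) (algebraMap K K₁ w₂))))) =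
        ((nF (VV A A') - 1 : ℕ) : Cardinal)

/-- EXF: the function fields exist. -/
def StmExF : Prop :=
  ∀ (K : Type) [Field K] (n m : ℕ) (F : K[X][X]), 0 < n → 0 < m → n.Coprime m → IsCab n m F →
    ∃ (K₁ : Type) (_ : Field K₁) (_ : Algebra K K₁) (x y : K₁), IsFun F x y

/-- SUMW: the sum over the parameters. -/
def StmSumW : Prop :=
  ∀ (F : Type) [Field F] [Fintype F] (a a' : F[X][X]),
    (∑ w : F × F,
      ((Nat.card F : ℝ) - Nat.card {z : F × F // evalEval z.1 z.2 (net a w.1 w.2) = 0}) *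
      ((Nat.card F : ℝ) - Nat.card {z : F × F // evalEval z.1 z.2 (net a' w.1 w.2) = 0})) =
    (Nat.card F : ℝ) *
      Nat.card {z : F × F × F // evalEval z.1 z.2.1 a = evalEval z.1 z.2.2 a'} -
      (Nat.card F : ℝ) ^ 3

/-- CNTV: the points of `VV`. -/
def StmCntV : Prop :=
  ∀ (A₀ : Type) [CommRing A₀] (F : Type) [Field F] [Fintype F] [Fintype (A₀ →+* F)]
    (a a' : A₀[X][X]),
    (Nat.card {φ : A₀[X][X][X] →+* F // φ (VV a a') = 0} : ℝ) = ∑ ψ : A₀ →+* F,
      (Nat.card {z : F × F × F // evalEval z.1 z.2.1 (a.map (mapRingHom ψ)) =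
        evalEval z.1 z.2.2 (a'.map (mapRingHom ψ))} : ℝ)

end Pool.Agent.K3h71.NP
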