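import Pool.Agent.K3h71.NP.Stm

/-! The trace of the fibre times the numbers of points of the curves of the base as a weight. -/

set_option autoImplicit false
set_option linter.all false
set_option maxHeartbeats 400000

namespace Pool.Agent.K3h71.NP

open Polynomial Pool.Agent.K3h82.CP Pool.Agent.R410.NG

/-- the error of the expansion of a product -/
theorem prod_exp {ι : Type} (s : Finset ι) (u c : ι → ℝ) {ε : ℝ} (hε : 0 ≤ ε) (hε1 : ε ≤ 1)
    (hc : ∀ i, 0 ≤ c i) (hu : ∀ i, |u i| ≤ c i * ε) :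
    |∏ i ∈ s, (1 + u i) - 1 - ∑ i ∈ s, u i| ≤
      (∏ i ∈ s, (1 + c i) - 1 - ∑ i ∈ s, c i) * ε ^ 2 := by
  classical
  induction s using Finset.induction_on with
  | empty => simp
  | insert j s hj ih =>
    rw [Finset.prod_insert hj, Finset.sum_insert hj, Finset.prod_insert hj, Finset.sum_insert hj]
    set P := ∏ i ∈ s, (1 + u i)
    set S := ∑ i ∈ s, u i
    set P' := ∏ i ∈ s, (1 + c i)
    set S' := ∑ i ∈ s, c i with hS'
    have h1 : (1 + u j) * P - 1 - (u j + S) = u j * S + (1 + u j) * (P - 1 - S) := by ring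
    rw [h1]
    have h2 : |S| ≤ S' * ε := by
      refine (Finset.abs_sum_le_sum_abs _ _).trans ?_
      rw [hS', Finset.sum_mul]
      exact Finset.sum_le_sum fun i _ => hu i
    have h3 : |u j| ≤ c j := (hu j).trans (mul_le_of_le_one_right (hc j) hε1)
    have h4 : |1 + u j| ≤ 1 + c j := (abs_add_le _ _).trans (by rw [abs_one]; linarith)
    have hS0 : 0 ≤ S' := Finset.sum_nonneg fun i _ => hc i
    calc |u j * S + (1 + u j) * (P - 1 - S)| ≤ |u j| * |S| + |1 + u j| * |P - 1 - S| := by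
          refine (abs_add_le _ _).trans ?_
          rw [abs_mul, abs_mul]
      _ ≤ (c j * ε) * (S' * ε) + (1 + c j) * ((P' - 1 - S') * ε ^ 2) := by
          refine add_le_add (mul_le_mul (hu j) h2 (abs_nonneg _) (mul_nonneg (hc j) hε)) ?_
          exact mul_le_mul h4 ih (abs_nonneg _) (by have := hc j; linarith)
      _ = _ := by ring

/-- the size of the expansion of a product -/
theorem prod_exp1 {ι : Type} (s : Finset ι) (u c : ι → ℝ) {ε : ℝ} (hε : 0 ≤ ε) (hε1 : ε ≤ 1)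
    (hc : ∀ i, 0 ≤ c i) (hu : ∀ i, |u i| ≤ c i * ε) :
    |∏ i ∈ s, (1 + u i) - 1| ≤ (∏ i ∈ s, (1 + c i) - 1) * ε := by
  classical
  induction s using Finset.induction_on with
  | empty => simp
  | insert j s hj ih =>
    rw [Finset.prod_insert hj, Finset.prod_insert hj]
    set P := ∏ i ∈ s, (1 + u i) with hP
    set P' := ∏ i ∈ s, (1 + c i) with hP'
    have h1 : (1 + u j) * P - 1 = (P - 1) + u j * P := by ring
    have h2 : |P| ≤ P' := by
      rw [hP, hP', Finset.abs_prod]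
      refine Finset.prod_le_prod (fun i _ => abs_nonneg _) fun i _ => ?_
      refine (abs_add_le _ _).trans ?_
      rw [abs_one]
      exact add_le_add le_rfl ((hu i).trans (mul_le_of_le_one_right (hc i) hε1))
    rw [h1]
    calc |(P - 1) + u j * P| ≤ |P - 1| + |u j| * |P| := by
          refine (abs_add_le _ _).trans ?_
          rw [abs_mul]
      _ ≤ (P' - 1) * ε + (c j * ε) * P' :=
          add_le_add ih (mul_le_mul (hu j) h2 (abs_nonneg _) (mul_nonneg (hc j) hε))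
      _ = _ := by ring

/-- the weight -/
noncomputable def w4 {r : ℕ} (n m : Fin (r + 1) → ℕ) : Wt (Σ i : Fin (r + 1), Fin (n i)) :=
  fun F _ p => wC (n 0) (m 0) F (fun t => p ⟨0, t⟩) *
    ∏ i : Fin r, (1 + (Nat.card F : ℝ)⁻¹ * wC (n i.succ) (m i.succ) F (fun t => p ⟨i.succ, t⟩))

/-- the degrees -/
def d3 {r : ℕ} (n m : Fin r → ℕ) (s : Σ i : Fin r, Fin (n i)) : ℕ := dj (n s.1) (m s.1) s.2

/-- the bound -/
noncomputable def c4 {r : ℕ} (c : Fin (r + 1) → ℝ) : ℝ := c 0 * ∏ i : Fin r, (1 + c i.succ)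

theorem c4_nonneg {r : ℕ} {c : Fin (r + 1) → ℝ} (hc : ∀ i, 0 ≤ c i) : 0 ≤ c4 c :=
  mul_nonneg (hc 0) (Finset.prod_nonneg fun i _ => by have := hc i.succ; linarith)

theorem inv_sqrt {q : ℝ} (hq : 0 < q) : q⁻¹ * √q = (√q)⁻¹ := by
  have h : √q * √q = q := Real.mul_self_sqrt hq.le
  have h0 : √q ≠ 0 := (Real.sqrt_pos.2 hq).ne'
  field_simp
  rw [sq, h]

/-- the bound for the traces of the curves of the base -/
theorem u_bound {n m : ℕ} {c : ℝ} (hw : IsWt (wC n m) (dj n m) c) (F : Type) [Field F] [Finite F]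
    (p : Fin n → F[X]) (hp : ∀ t, (p t).Monic ∧ (p t).natDegree = dj n m t) :
    |(Nat.card F : ℝ)⁻¹ * wC n m F p| ≤ c * (√(Nat.card F : ℝ))⁻¹ := by
  have hq : (0 : ℝ) < (Nat.card F : ℝ) := by exact_mod_cast Nat.card_pos
  have h := hw.bound F p hp
  rw [abs_mul, abs_inv, abs_of_pos hq]
  calc (Nat.card F : ℝ)⁻¹ * |wC n m F p| ≤ (Nat.card F : ℝ)⁻¹ * (c * √(Nat.card F : ℝ)) :=
        mul_le_mul_of_nonneg_left h (inv_pos.2 hq).le
    _ = c * ((Nat.card F : ℝ)⁻¹ * √(Nat.card F : ℝ)) := by ring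
    _ = _ := by rw [inv_sqrt hq]

theorem w4_near {r : ℕ} {n m : Fin (r + 1) → ℕ} {c : Fin (r + 1) → ℝ}
    (hw : ∀ i, IsWt (wC (n i) (m i)) (dj (n i) (m i)) (c i)) (F : Type) [Field F] [Finite F]
    (p : (Σ i : Fin (r + 1), Fin (n i)) → F[X]) (hp : ∀ s, (p s).Monic ∧ (p s).natDegree = d3 n m s) :
    |w4 n m F p - wC (n 0) (m 0) F (fun t => p ⟨0, t⟩) *
      (1 + ∑ i : Fin r, (Nat.card F : ℝ)⁻¹ * wC (n i.succ) (m i.succ) F (fun t => p ⟨i.succ, t⟩))| *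
        √(Nat.card F : ℝ) ≤ c4 c := by
  have hq : (0 : ℝ) < (Nat.card F : ℝ) := by exact_mod_cast Nat.card_pos
  have hq1 : (1 : ℝ) ≤ (Nat.card F : ℝ) := by exact_mod_cast Nat.card_pos
  have hs : √(Nat.card F : ℝ) * √(Nat.card F : ℝ) = Nat.card F := Real.mul_self_sqrt hq.le
  have hs0 : 0 < √(Nat.card F : ℝ) := Real.sqrt_pos.2 hq
  have hs1 : 1 ≤ √(Nat.card F : ℝ) := Real.one_le_sqrt.2 hq1
  have h0 := (hw 0).bound F (fun t => p ⟨0, t⟩) (fun t => hp ⟨0, t⟩)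
  have h1 := prod_exp Finset.univ (fun i : Fin r => (Nat.card F : ℝ)⁻¹ *
    wC (n i.succ) (m i.succ) F (fun t => p ⟨i.succ, t⟩)) (fun i => c i.succ)
    (ε := (√(Nat.card F : ℝ))⁻¹) (inv_pos.2 hs0).le (inv_le_one_of_one_le₀ hs1)
    (fun i => (hw i.succ).c0) (fun i => u_bound (hw i.succ) F _ (fun t => hp ⟨i.succ, t⟩))
  have h2 : ∏ i : Fin r, (1 + c i.succ) - 1 - ∑ i : Fin r, c i.succ ≤ ∏ i : Fin r, (1 + c i.succ) := by
    have : 0 ≤ ∑ i : Fin r, c i.succ := Finset.sum_nonneg fun i _ => (hw i.succ).c0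
    linarith
  unfold w4 c4
  set W0 := wC (n 0) (m 0) F (fun t => p ⟨0, t⟩)
  set P := ∏ i : Fin r, (1 + (Nat.card F : ℝ)⁻¹ *
    wC (n i.succ) (m i.succ) F (fun t => p ⟨i.succ, t⟩))
  set T := ∑ i : Fin r, (Nat.card F : ℝ)⁻¹ * wC (n i.succ) (m i.succ) F (fun t => p ⟨i.succ, t⟩)
  set Q := ∏ i : Fin r, (1 + c i.succ) with hQ
  have hQ0 : 0 ≤ Q := Finset.prod_nonneg fun i _ => by have := (hw i.succ).c0; linarith
  have e1 : W0 * P - W0 * (1 + T) = W0 * (P - 1 - T) := by ring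
  rw [e1, abs_mul]
  have h3 : |P - 1 - T| ≤ Q * ((√(Nat.card F : ℝ))⁻¹) ^ 2 :=
    h1.trans (mul_le_mul_of_nonneg_right h2 (sq_nonneg _))
  calc |W0| * |P - 1 - T| * √(Nat.card F : ℝ) ≤
      (c 0 * √(Nat.card F : ℝ)) * (Q * ((√(Nat.card F : ℝ))⁻¹) ^ 2) * √(Nat.card F : ℝ) := by
        refine mul_le_mul_of_nonneg_right ?_ hs0.le
        exact mul_le_mul h0 h3 (abs_nonneg _) (mul_nonneg (hw 0).c0 hs0.le)
    _ = c 0 * Q := by field_simp

theorem w4_near1 {r : ℕ} {n m : Fin (r + 1) → ℕ} {c : Fin (r + 1) → ℝ}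
    (hw : ∀ i, IsWt (wC (n i) (m i)) (dj (n i) (m i)) (c i)) (F : Type) [Field F] [Finite F]
    (p : (Σ i : Fin (r + 1), Fin (n i)) → F[X]) (hp : ∀ s, (p s).Monic ∧ (p s).natDegree = d3 n m s) :
    |w4 n m F p - wC (n 0) (m 0) F (fun t => p ⟨0, t⟩)| ≤ c4 c := by
  have hq : (0 : ℝ) < (Nat.card F : ℝ) := by exact_mod_cast Nat.card_pos
  have hq1 : (1 : ℝ) ≤ (Nat.card F : ℝ) := by exact_mod_cast Nat.card_pos
  have hs0 : 0 < √(Nat.card F : ℝ) := Real.sqrt_pos.2 hq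
  have hs1 : 1 ≤ √(Nat.card F : ℝ) := Real.one_le_sqrt.2 hq1
  have h0 := (hw 0).bound F (fun t => p ⟨0, t⟩) (fun t => hp ⟨0, t⟩)
  have h1 := prod_exp1 Finset.univ (fun i : Fin r => (Nat.card F : ℝ)⁻¹ *
    wC (n i.succ) (m i.succ) F (fun t => p ⟨i.succ, t⟩)) (fun i => c i.succ)
    (ε := (√(Nat.card F : ℝ))⁻¹) (inv_pos.2 hs0).le (inv_le_one_of_one_le₀ hs1)
    (fun i => (hw i.succ).c0) (fun i => u_bound (hw i.succ) F _ (fun t => hp ⟨i.succ, t⟩))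
  unfold w4 c4
  set W0 := wC (n 0) (m 0) F (fun t => p ⟨0, t⟩)
  set P := ∏ i : Fin r, (1 + (Nat.card F : ℝ)⁻¹ *
    wC (n i.succ) (m i.succ) F (fun t => p ⟨i.succ, t⟩))
  set Q := ∏ i : Fin r, (1 + c i.succ) with hQ
  have e1 : W0 * P - W0 = W0 * (P - 1) := by ring
  rw [e1, abs_mul]
  have h3 : |P - 1| ≤ Q * (√(Nat.card F : ℝ))⁻¹ :=
    h1.trans (mul_le_mul_of_nonneg_right (by linarith) (inv_pos.2 hs0).le)
  calc |W0| * |P - 1| ≤ (c 0 * √(Nat.card F : ℝ)) * (Q * (√(Nat.card F : ℝ))⁻¹) :=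
        mul_le_mul h0 h3 (abs_nonneg _) (mul_nonneg (hw 0).c0 hs0.le)
    _ = c 0 * Q := by field_simp

theorem w4_bound {r : ℕ} {n m : Fin (r + 1) → ℕ} {c : Fin (r + 1) → ℝ}
    (hw : ∀ i, IsWt (wC (n i) (m i)) (dj (n i) (m i)) (c i)) (F : Type) [Field F] [Finite F]
    (p : (Σ i : Fin (r + 1), Fin (n i)) → F[X]) (hp : ∀ s, (p s).Monic ∧ (p s).natDegree = d3 n m s) :
    |w4 n m F p| ≤ c4 c * √(Nat.card F : ℝ) := by
  have hq1 : (1 : ℝ) ≤ (Nat.card F : ℝ) := by exact_mod_cast Nat.card_pos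
  have hs1 : 1 ≤ √(Nat.card F : ℝ) := Real.one_le_sqrt.2 hq1
  have h0 := (hw 0).bound F (fun t => p ⟨0, t⟩) (fun t => hp ⟨0, t⟩)
  unfold w4 c4
  rw [abs_mul, Finset.abs_prod, mul_right_comm]
  refine mul_le_mul h0 (Finset.prod_le_prod (fun i _ => abs_nonneg _) fun i _ => ?_)
    (Finset.prod_nonneg fun i _ => abs_nonneg _) (mul_nonneg (hw 0).c0 (Real.sqrt_nonneg _))
  have h1 := u_bound (hw i.succ) F _ (fun t => hp ⟨i.succ, t⟩)
  refine (abs_add_le _ _).trans ?_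
  rw [abs_one]
  refine add_le_add le_rfl (h1.trans ?_)
  exact mul_le_of_le_one_right (hw i.succ).c0 (inv_le_one_of_one_le₀ hs1)

theorem isWt_w4 {r : ℕ} {n m : Fin (r + 1) → ℕ} {c : Fin (r + 1) → ℝ}
    (hw : ∀ i, IsWt (wC (n i) (m i)) (dj (n i) (m i)) (c i)) :
    IsWt (w4 n m) (d3 n m) (c4 c) where
  c0 := c4_nonneg fun i => (hw i).c0
  iso F F' _ _ e p := by
    unfold w4
    have h : ∀ i, wC (n i) (m i) F' (fun t => (p ⟨i, t⟩).map (e : F →+* F')) =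
        wC (n i) (m i) F (fun t => p ⟨i, t⟩) := fun i => (hw i).iso F F' e _
    simp only [h]
    rw [Nat.card_congr e.toEquiv]
  bound F _ _ p hp := w4_bound hw F p hp

end Pool.Agent.K3h71.NP
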